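import Mathlib

/-!
# Sun's supercongruence for the triple binomial sum `a(n)`

For every prime `p > 3` and every `n ≥ 1` the number `(a (p n) - a n) / (p n) ^ 3` is a `p`-adic integer,
where `a n = ∑ j, C(n+j, j) C(n, j) C(n-j, j)`.

Idea: MacMahon's identity at the primitive sixth roots of unity (`x + y = x y = 1`) gives
`2 a(n) = ∑ k, C(n, k)^3 L(2 k - n)` with `L m = 2 cos (π m / 3)`; in the sum for `p n` the terms with
`k` prime to `p` are divisible by `(p n)^3` (`p`-adically), and the terms `k = p j` are handled by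
a Jacobsthal type congruence together with the divisibility of `C(n, j)^3`.
-/

open Finset

namespace Pool.Agent.Results.MP_ebce10_nt.SunSupercongruence

/-- The sequence of the problem: `a(n) = ∑_{j=0}^{n} C(n+j, j) * C(n, j) * C(n-j, j)`
(for `j ≤ n`, the only indices that occur, `n - j` is the ordinary difference;
`C(m, j) = 0` when `j > m`). -/
def a (n : ℕ) : ℕ :=
  ∑ j ∈ Finset.range (n + 1), (n + j).choose j * n.choose j * (n - j).choose j

/-- Vandermonde in the form with `range`. -/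
lemma vand (a b : ℕ) : ∀ c, ∑ j ∈ range (c+1), b.choose j * a.choose (c - j) = (a + b).choose c := by
  intro c
  rw [add_comm a b, Nat.add_choose_eq, Finset.Nat.sum_antidiagonal_eq_sum_range_succ_mk]

lemma I1 (a b : ℕ) :
    ∑ j ∈ range (a+1), a.choose j * b.choose j * (a+b+j).choose j = ((a+b).choose a)^2 := by
  -- expand
  have h1 : ∀ j ∈ range (a+1), a.choose j * b.choose j * (a+b+j).choose j =
      ∑ i ∈ range (a+1), (a+b).choose i * (a.choose i * (b.choose j * (if i ≤ j then (a-i).choose (j-i) else 0))) := by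
    intro j hj
    have hj' : j ≤ a := by simpa [Nat.lt_succ_iff] using hj
    have h2 : (a+b+j).choose j = ∑ i ∈ range (a+1), (a+b).choose i * (j.choose i) := by
      have := vand j (a+b) j
      rw [add_comm j (a+b)] at this
      rw [← this]
      have h3 : ∑ i ∈ range (j+1), (a+b).choose i * j.choose (j-i) = ∑ i ∈ range (j+1), (a+b).choose i * j.choose i := by
        apply Finset.sum_congr rfl
        intro i hi
        have hi' : i ≤ j := by simpa [Nat.lt_succ_iff] using hi
        rw [Nat.choose_symm hi']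
      rw [h3]
      apply Finset.sum_subset
      · intro x hx; simp at hx ⊢; omega
      · intro x _ hx
        simp at hx
        rw [Nat.choose_eq_zero_of_lt (show j < x by omega)]; simp
    rw [h2, Finset.mul_sum]
    apply Finset.sum_congr rfl
    intro i _
    by_cases hij : i ≤ j
    · rw [if_pos hij]
      have := Nat.choose_mul (n := a) hij
      calc a.choose j * b.choose j * ((a+b).choose i * j.choose i) = (a+b).choose i * (b.choose j * (a.choose j * j.choose i)) := by ring
        _ = _ := by rw [this]; ring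
    · rw [if_neg hij, Nat.choose_eq_zero_of_lt (show j < i by omega)]; simp
  rw [Finset.sum_congr rfl h1, Finset.sum_comm]
  have h4 : ∀ i ∈ range (a+1), ∑ j ∈ range (a+1), (a+b).choose i * (a.choose i * (b.choose j * (if i ≤ j then (a-i).choose (j-i) else 0)))
     = (a+b).choose a * (b.choose i * a.choose (a-i)) := by
    intro i hi
    have hi' : i ≤ a := by simpa [Nat.lt_succ_iff] using hi
    rw [← Finset.mul_sum, ← Finset.mul_sum]
    have h5 : ∑ j ∈ range (a+1), (b.choose j * (if i ≤ j then (a-i).choose (j-i) else 0)) = (a - i + b).choose a := by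
      rw [← vand (a-i) b a]
      apply Finset.sum_congr rfl
      intro j hj
      have hj' : j ≤ a := by simpa [Nat.lt_succ_iff] using hj
      by_cases hij : i ≤ j
      · rw [if_pos hij]
        congr 1
        rw [← Nat.choose_symm (show j - i ≤ a - i by omega)]
        congr 1; omega
      · rw [if_neg hij, Nat.choose_eq_zero_of_lt (show a - i < a - j by omega)]
    rw [h5]
    by_cases hib : i ≤ b
    · have e1 := Nat.choose_mul (n := a+b) (k := a+i) (s := i) (by omega)
      have e2 := Nat.choose_mul (n := a+b) (k := a+i) (s := a) (by omega)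
      have e3 : a + b - i = a - i + b := by omega
      have e4 : a + i - i = a := by omega
      have e5 : a + b - a = b := by omega
      have e6 : a + i - a = i := by omega
      rw [e3, e4] at e1
      rw [e5, e6] at e2
      have e7 : (a+i).choose i = (a+i).choose a := by
        rw [← Nat.choose_symm (show i ≤ a + i by omega)]; congr 1
      rw [Nat.choose_symm hi']
      calc (a+b).choose i * (a.choose i * (a-i+b).choose a) = a.choose i * ((a+b).choose i * (a-i+b).choose a) := by ring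
        _ = a.choose i * ((a+b).choose a * b.choose i) := by rw [← e1, ← e2, e7]
        _ = _ := by ring
    · rw [Nat.choose_eq_zero_of_lt (show b < i by omega), Nat.choose_eq_zero_of_lt (show a - i + b < a by omega)]
      simp
  rw [Finset.sum_congr rfl h4, ← Finset.mul_sum, vand a b a]
  ring

/-- The 6-periodic sequence `2 cos (π m / 3)`. -/
def L (m : ℤ) : ℤ :=
  if m % 6 = 0 then 2 else if m % 6 = 3 then -2 else if m % 6 = 1 ∨ m % 6 = 5 then 1 else -1

lemma L_rec (m : ℤ) : L (m - 1) + L (m + 1) = L m := by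
  unfold L
  have : m % 6 = 0 ∨ m % 6 = 1 ∨ m % 6 = 2 ∨ m % 6 = 3 ∨ m % 6 = 4 ∨ m % 6 = 5 := by omega
  rcases this with h | h | h | h | h | h
  · have h1 : (m-1) % 6 = 5 := by omega
    have h2 : (m+1) % 6 = 1 := by omega
    simp [h, h1, h2]
  · have h1 : (m-1) % 6 = 0 := by omega
    have h2 : (m+1) % 6 = 2 := by omega
    simp [h, h1, h2]
  · have h1 : (m-1) % 6 = 1 := by omega
    have h2 : (m+1) % 6 = 3 := by omega
    simp [h, h1, h2]
  · have h1 : (m-1) % 6 = 2 := by omega
    have h2 : (m+1) % 6 = 4 := by omega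
    simp [h, h1, h2]
  · have h1 : (m-1) % 6 = 3 := by omega
    have h2 : (m+1) % 6 = 5 := by omega
    simp [h, h1, h2]
  · have h1 : (m-1) % 6 = 4 := by omega
    have h2 : (m+1) % 6 = 0 := by omega
    simp [h, h1, h2]

lemma L_mul (p : ℕ) (hp : p.Prime) (h3 : 3 < p) (m : ℤ) : L (p * m) = L m := by
  have h2 : ¬ 2 ∣ p := by
    intro h; have := (Nat.prime_dvd_prime_iff_eq Nat.prime_two hp).1 h; omega
  have h3' : ¬ 3 ∣ p := by
    intro h; have := (Nat.prime_dvd_prime_iff_eq Nat.prime_three hp).1 h; omega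
  have h6 : (p : ℤ) % 6 = 1 ∨ (p : ℤ) % 6 = 5 := by omega
  have key : ((p : ℤ) * m) % 6 = ((p % 6) * (m % 6)) % 6 := Int.mul_emod _ _ _
  unfold L
  have : m % 6 = 0 ∨ m % 6 = 1 ∨ m % 6 = 2 ∨ m % 6 = 3 ∨ m % 6 = 4 ∨ m % 6 = 5 := by omega
  rcases h6 with h6 | h6 <;> rcases this with h | h | h | h | h | h <;> rw [key, h6, h] <;> norm_num

lemma I3 (N : ℕ) : ∀ m : ℤ, ∑ k ∈ range (N+1), (N.choose k : ℤ) * L (m + 2*k - N) = L m := by
  induction N with
  | zero => intro m; simp
  | succ N ih =>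
    intro m
    rw [Finset.sum_range_succ']
    have e1 : ∑ k ∈ range (N+1), ((N+1).choose (k+1) : ℤ) * L (m + 2*((k+1 : ℕ) : ℤ) - ((N+1 : ℕ) : ℤ))
      = ∑ k ∈ range (N+1), (N.choose k : ℤ) * L ((m+1) + 2*k - N) +
        ∑ k ∈ range (N+1), (N.choose (k+1) : ℤ) * L ((m-1) + 2*((k+1 : ℕ):ℤ) - N) := by
      rw [← Finset.sum_add_distrib]
      apply Finset.sum_congr rfl
      intro k _
      rw [Nat.choose_succ_succ]
      push_cast
      have a1 : m + 2*((k:ℤ)+1) - (N+1) = m + 1 + 2*k - N := by ring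
      have a2 : m - 1 + 2*((k:ℤ)+1) - N = m + 1 + 2*k - N := by ring
      rw [a1, a2]; ring
    rw [e1, ih (m+1)]
    have e2 := ih (m-1)
    have e3 : ∑ k ∈ range (N+1+1), (N.choose k : ℤ) * L ((m-1) + 2*k - N) = L (m-1) := by
      rw [Finset.sum_range_succ, e2, Nat.choose_eq_zero_of_lt (Nat.lt_succ_self N)]; simp
    rw [Finset.sum_range_succ'] at e3
    have e4 : m + 2*((0:ℕ):ℤ) - ((N+1:ℕ):ℤ) = (m-1) + 2*((0:ℕ):ℤ) - N := by push_cast; ring
    rw [e4]
    have e5 : ((N+1).choose 0 : ℤ) = (N.choose 0 : ℤ) := by simp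
    rw [e5, add_assoc, e3]
    have := L_rec m
    linarith


lemma I2 (n k j : ℕ) (h1 : j ≤ k) (h2 : k + j ≤ n) :
    n.choose k * k.choose j * (n-k).choose j = n.choose j * (n-j).choose j * (n-2*j).choose (k-j) := by
  have e1 := Nat.choose_mul (n := n) h1
  have e2 := Nat.choose_mul (n := n - j) (k := n - k) (s := j) (by omega)
  have e3 : (n-j).choose (k-j) = (n-j).choose (n-k) := by
    rw [← Nat.choose_symm (show k - j ≤ n - j by omega)]; congr 1; omega
  have e4 : (n-j-j).choose (n-k-j) = (n-2*j).choose (k-j) := by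
    rw [← Nat.choose_symm (show n-k-j ≤ n-j-j by omega)]
    have : n - j - j - (n-k-j) = k - j := by omega
    rw [this]; congr 1; omega
  calc n.choose k * k.choose j * (n-k).choose j = n.choose j * ((n-j).choose (k-j)) * (n-k).choose j := by rw [e1]
    _ = n.choose j * ((n-j).choose (n-k) * (n-k).choose j) := by rw [e3]; ring
    _ = n.choose j * ((n-j).choose j * (n-j-j).choose (n-k-j)) := by rw [e2]
    _ = _ := by rw [e4]; ring

lemma two_a (n : ℕ) : (2 * (a n) : ℤ) = ∑ k ∈ range (n+1), ((n.choose k : ℤ))^3 * L (2*k - n) := by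
  have h1 : ∀ k ∈ range (n+1), ((n.choose k : ℤ))^3 * L (2*k - n) =
      ∑ j ∈ range (n+1), ((n+j).choose j : ℤ) * ((n.choose k * k.choose j * (n-k).choose j : ℕ) * L (2*k-n)) := by
    intro k hk
    have hk' : k ≤ n := by simpa [Nat.lt_succ_iff] using hk
    have h2 : (n.choose k)^2 = ∑ j ∈ range (n+1), k.choose j * (n-k).choose j * (n+j).choose j := by
      have := I1 k (n-k)
      rw [show k + (n-k) = n by omega] at this
      rw [← this]
      apply Finset.sum_subset
      · intro x hx; simp at hx ⊢; omega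
      · intro x _ hx
        simp at hx
        rw [Nat.choose_eq_zero_of_lt (show k < x by omega)]; simp
    have h2' : ((n.choose k : ℤ))^2 = ∑ j ∈ range (n+1), (k.choose j : ℤ) * (n-k).choose j * (n+j).choose j := by
      exact_mod_cast h2
    calc ((n.choose k : ℤ))^3 * L (2*k - n) = ((n.choose k : ℤ))^2 * ((n.choose k : ℤ) * L (2*k-n)) := by ring
      _ = _ := by
        rw [h2', Finset.sum_mul]
        apply Finset.sum_congr rfl
        intro j _
        push_cast
        ring
  rw [Finset.sum_congr rfl h1, Finset.sum_comm]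
  unfold a
  push_cast
  rw [Finset.mul_sum]
  apply Finset.sum_congr rfl
  intro j hj
  have h3 : ∑ k ∈ range (n+1), (((n.choose k * k.choose j * (n-k).choose j : ℕ) : ℤ) * L (2*k-n))
     = 2 * ((n.choose j : ℤ) * (n-j).choose j) := by
    by_cases hjn : 2*j ≤ n
    · have h4 : ∑ k ∈ range (n+1), (((n.choose k * k.choose j * (n-k).choose j : ℕ) : ℤ) * L (2*k-n))
        = ∑ i ∈ range (n-2*j+1), (((n.choose (j+i) * (j+i).choose j * (n-(j+i)).choose j : ℕ) : ℤ) * L (2*((j+i : ℕ) : ℤ)-n)) := by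
        symm
        apply Finset.sum_of_injOn (fun i => j + i)
        · intro x _ y _ hxy
          simpa using hxy
        · intro x hx
          simp at hx ⊢
          omega
        · intro k hk hk2
          have hk' : k ≤ n := by simpa [Nat.lt_succ_iff] using hk
          by_cases hkj : k < j
          · rw [Nat.choose_eq_zero_of_lt hkj]; simp
          · have : n - k < j := by
              by_contra hcon
              apply hk2
              refine ⟨k - j, ?_, ?_⟩
              · simp; omega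
              · simp; omega
            rw [Nat.choose_eq_zero_of_lt this]; simp
        · intro i _
          rfl
      rw [h4]
      have h5 : ∀ i ∈ range (n-2*j+1), (((n.choose (j+i) * (j+i).choose j * (n-(j+i)).choose j : ℕ) : ℤ) * L (2*((j+i : ℕ) : ℤ)-n))
         = ((n.choose j : ℤ) * (n-j).choose j) * (((n-2*j).choose i : ℤ) * L (0 + 2 * i - ((n-2*j : ℕ) : ℤ))) := by
        intro i hi
        have hi' : i ≤ n - 2*j := by simpa [Nat.lt_succ_iff] using hi
        rw [I2 n (j+i) j (by omega) (by omega)]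
        have e1 : j + i - j = i := by omega
        have e2 : (2 : ℤ) * ((j+i : ℕ) : ℤ) - n = 0 + 2 * i - ((n-2*j : ℕ) : ℤ) := by
          push_cast [hjn]; ring
        rw [e1, e2]; push_cast; ring
      rw [Finset.sum_congr rfl h5, ← Finset.mul_sum, I3 (n-2*j) 0]
      have : L 0 = 2 := by decide
      rw [this]; ring
    · rw [Nat.choose_eq_zero_of_lt (show n - j < j by omega)]
      simp
      apply Finset.sum_eq_zero
      intro k hk
      have hk' : k ≤ n := by simpa [Nat.lt_succ_iff] using hk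
      by_cases hkj : k < j
      · rw [Nat.choose_eq_zero_of_lt hkj]; simp
      · rw [Nat.choose_eq_zero_of_lt (show n - k < j by omega)]; simp
  have h6 : ∑ k ∈ range (n+1), ((n+j).choose j : ℤ) * ((n.choose k * k.choose j * (n-k).choose j : ℤ) * L (2*k-n))
      = ((n+j).choose j : ℤ) * ∑ k ∈ range (n+1), (((n.choose k * k.choose j * (n-k).choose j : ℕ) : ℤ) * L (2*k-n)) := by
    rw [Finset.mul_sum]
    apply Finset.sum_congr rfl
    intro k _
    push_cast
    ring
  rw [h6, h3]; ring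



def g (p i : ℕ) : ℕ := if p ∣ i then 1 else i

lemma fact_eq (p : ℕ) (hp : 0 < p) (m : ℕ) :
    (p*m).factorial = p^m * m.factorial * ∏ i ∈ range (p*m), g p i := by
  obtain ⟨p', rfl⟩ : ∃ p', p = p' + 1 := ⟨p - 1, by omega⟩
  induction m with
  | zero => simp
  | succ m ih =>
    have e1 : (p'+1)*(m+1) = (p'+1)*m + (p'+1) := by ring
    rw [e1, ← Nat.factorial_mul_ascFactorial, ih, Nat.ascFactorial_eq_prod_range, Finset.prod_range_add (fun i => g (p'+1) i)]
    have e2 : ∏ x ∈ range (p'+1), g (p'+1) ((p'+1)*m + x) = ∏ x ∈ range p', ((p'+1)*m + 1 + x) := by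
      rw [Finset.prod_range_succ']
      have : g (p'+1) ((p'+1)*m + 0) = 1 := by
        unfold g; rw [if_pos]; simp
      rw [this, mul_one]
      apply Finset.prod_congr rfl
      intro x hx
      have hx' : x < p' := by simpa using hx
      unfold g
      rw [if_neg]
      · ring
      · intro h
        have : (p'+1) ∣ (x+1) := (Nat.dvd_add_right (Dvd.intro m rfl)).1 h
        have := Nat.le_of_dvd (by omega) this
        omega
    rw [e2, Finset.prod_range_succ, Nat.factorial_succ, pow_succ]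
    ring

lemma choose_eq (p : ℕ) (hp : 0 < p) (a b : ℕ) :
    (p*(a+b)).choose (p*a) * ∏ i ∈ range (p*a), g p i = (a+b).choose a * ∏ i ∈ range (p*a), g p (p*b+i) := by
  have h1 := Nat.add_choose_mul_factorial_mul_factorial (p*a) (p*b)
  have h2 := Nat.add_choose_mul_factorial_mul_factorial a b
  rw [← Nat.choose_symm_add] at h1 h2
  rw [fact_eq p hp a, fact_eq p hp b, ← mul_add, fact_eq p hp (a+b), ← h2] at h1
  have h3 : ∏ i ∈ range (p*(a+b)), g p i = (∏ i ∈ range (p*b), g p i) * ∏ i ∈ range (p*a), g p (p*b+i) := by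
    rw [show p*(a+b) = p*b+p*a by ring, Finset.prod_range_add]
  rw [h3] at h1
  have hg : ∀ i, 0 < g p i := by
    intro i; unfold g; split_ifs with h
    · exact one_pos
    · rcases Nat.eq_zero_or_pos i with h0 | h0
      · subst h0; simp at h
      · exact h0
  have hpos : 0 < p^(a+b) * a.factorial * b.factorial * ∏ i ∈ range (p*b), g p i := by
    have := Finset.prod_pos (s := range (p*b)) (f := g p) (fun i _ => hg i)
    positivity
  apply Nat.eq_of_mul_eq_mul_left hpos
  rw [pow_add] at h1 ⊢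
  linarith [h1]

lemma prod_one_add {R : Type*} [CommRing R] {ι : Type*} (t : R) (ht : t * t = 0) (s : Finset ι) (c : ι → R) :
    ∏ i ∈ s, (1 + t * c i) = 1 + t * ∑ i ∈ s, c i := by
  classical
  induction s using Finset.induction_on with
  | empty => simp
  | insert i s hi ih =>
    rw [Finset.prod_insert hi, Finset.sum_insert hi, ih]
    linear_combination (c i * ∑ i ∈ s, c i) * ht

lemma sum_zmod (q c : ℕ) (h : ZMod q → ZMod q) :
    ∑ i ∈ range (q*c), h (i : ZMod q) = c * ∑ i ∈ range q, h (i : ZMod q) := by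
  induction c with
  | zero => simp
  | succ c ih =>
    rw [Nat.mul_succ, Finset.sum_range_add, ih]
    push_cast
    simp
    ring

lemma sum_range_zmod (q : ℕ) [NeZero q] (h : ZMod q → ZMod q) :
    ∑ i ∈ range q, h (i : ZMod q) = ∑ x : ZMod q, h x := by
  symm
  apply Finset.sum_nbij' (fun x : ZMod q => x.val) (fun i : ℕ => (i : ZMod q))
  · intro x _; simp [ZMod.val_lt]
  · intro i _; simp
  · intro x _; simp
  · intro i hi; simp at hi; exact ZMod.val_cast_of_lt hi
  · intro x _; simp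

open Classical in
noncomputable def isq (q : ℕ) (x : ZMod q) : ZMod q := if IsUnit x then (x⁻¹)^2 else 0

lemma sum_isq_zero (q : ℕ) [NeZero q] (h2 : Nat.Coprime 2 q) (h3 : Nat.Coprime 3 q) :
    ∑ x : ZMod q, isq q x = 0 := by
  have u2 : IsUnit ((2 : ℕ) : ZMod q) := (ZMod.isUnit_iff_coprime 2 q).2 h2
  have u3 : IsUnit ((3 : ℕ) : ZMod q) := (ZMod.isUnit_iff_coprime 3 q).2 h3
  obtain ⟨w, hw⟩ := u2
  have hw2 : (w.1 : ZMod q) = 2 := by rw [hw]; norm_num
  have h1 : ∑ x : ZMod q, isq q x = ∑ x : ZMod q, isq q (w.1*x) := by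
    symm
    apply Fintype.sum_bijective (fun x => w.1 * x)
    · constructor
      · intro x y hxy
        exact (w.isUnit.mul_right_inj).1 hxy
      · intro y
        exact ⟨w⁻¹.1 * y, by simp⟩
    · intro x; rfl
  have h4 : ∀ x : ZMod q, 4 * isq q (w.1*x) = isq q x := by
    intro x
    unfold isq
    by_cases hx : IsUnit x
    · have hwx : IsUnit (w.1*x) := w.isUnit.mul hx
      rw [if_pos hx, if_pos hwx]
      have e1 : (w.1*x) * (w.1*x)⁻¹ = 1 := ZMod.mul_inv_of_unit _ hwx
      have e2 : x * x⁻¹ = 1 := ZMod.mul_inv_of_unit _ hx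
      have e3 : (2 : ZMod q) * (w.1*x)⁻¹ = x⁻¹ := by
        rw [hw2] at e1 ⊢
        calc (2 : ZMod q) * (2*x)⁻¹ = (x * x⁻¹) * (2 * (2*x)⁻¹) := by rw [e2]; ring
          _ = x⁻¹ * ((2*x) * (2*x)⁻¹) := by ring
          _ = x⁻¹ := by rw [e1, mul_one]
      rw [← e3]; ring
    · have hwx : ¬ IsUnit (w.1*x) := by
        intro h; exact hx ((IsUnit.mul_iff.1 h).2)
      rw [if_neg hx, if_neg hwx, mul_zero]
  have h5 : 4 * ∑ x : ZMod q, isq q x = ∑ x : ZMod q, isq q x := by
    conv_lhs => rw [h1, Finset.mul_sum]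
    exact Finset.sum_congr rfl (fun x _ => h4 x)
  have h6 : ((3 : ℕ) : ZMod q) * ∑ x : ZMod q, isq q x = 0 := by
    push_cast; linear_combination h5
  exact (u3.mul_right_eq_zero).1 h6


lemma key_sq (p e a b : ℕ) (hp : p.Prime) (h3 : 3 < p) (ha : p^e ∣ p*a) (hb : p^e ∣ p*b) (he : 1 ≤ e) :
    ((((p^e)^3 : ℕ) : ℤ) ∣ ((∏ i ∈ (range (p*a)).filter (fun i => ¬ p ∣ i), (p*b+i) : ℕ) : ℤ)^2
      - ((∏ i ∈ (range (p*a)).filter (fun i => ¬ p ∣ i), i : ℕ) : ℤ)^2) := by
  have hc2 : Nat.Coprime 2 p := by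
    rw [Nat.coprime_primes Nat.prime_two hp]; omega
  have hc3 : Nat.Coprime 3 p := by
    rw [Nat.coprime_primes Nat.prime_three hp]; omega
  obtain ⟨q, hq⟩ : ∃ q, q = p^e := ⟨_, rfl⟩
  rw [← hq] at ha hb ⊢
  have hqpos : 0 < q := by rw [hq]; exact pow_pos hp.pos e
  have hq2 : Nat.Coprime 2 q := by rw [hq]; exact hc2.pow_right e
  have hq3 : Nat.Coprime 3 q := by rw [hq]; exact hc3.pow_right e
  have hqc : ∀ i : ℕ, ¬ p ∣ i → Nat.Coprime i q := by
    intro i hi
    rw [hq]
    exact Nat.Coprime.pow_right e ((Nat.Prime.coprime_iff_not_dvd hp).2 hi).symm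
  have hqc' : ∀ i : ℕ, p ∣ i → ¬ Nat.Coprime i q := by
    intro i hi h
    have h1 : p ∣ q := by rw [hq]; exact dvd_pow_self p (by omega)
    exact Nat.not_coprime_of_dvd_of_dvd hp.one_lt hi h1 h
  have : NeZero q := ⟨hqpos.ne'⟩
  have : NeZero (q^3) := ⟨(pow_pos hqpos 3).ne'⟩
  obtain ⟨J, hJ⟩ : ∃ J, J = p*a := ⟨_, rfl⟩
  obtain ⟨X, hX⟩ : ∃ X, X = p*b := ⟨_, rfl⟩
  have hpJ : p ∣ J := by rw [hJ]; exact dvd_mul_right p a
  have hpX : p ∣ X := by rw [hX]; exact dvd_mul_right p b
  rw [← hJ] at ha ⊢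
  rw [← hX] at hb ⊢
  obtain ⟨j', hj'⟩ := ha
  obtain ⟨x', hx'⟩ := hb
  set U := (range J).filter (fun i => ¬ p ∣ i) with hU
  have memU : ∀ i, i ∈ U ↔ i < J ∧ ¬ p ∣ i := by intro i; simp [hU]
  have reflU : ∀ i ∈ U, J - i ∈ U := by
    intro i hi
    rw [memU] at hi ⊢
    constructor
    · have : i ≠ 0 := by rintro rfl; exact hi.2 (dvd_zero p)
      omega
    · intro h
      apply hi.2
      have : p ∣ (J - i) + i := by rw [Nat.sub_add_cancel hi.1.le]; exact hpJ
      exact (Nat.dvd_add_right h).1 this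
  have refl_refl : ∀ i ∈ U, J - (J - i) = i := by
    intro i hi; rw [memU] at hi; omega
  have hrefl : ∀ f : ℕ → ZMod (q^3), ∏ i ∈ U, f i = ∏ i ∈ U, f (J - i) := by
    intro f
    apply Finset.prod_nbij' (fun i => J - i) (fun i => J - i)
    · exact reflU
    · exact reflU
    · exact refl_refl
    · exact refl_refl
    · intro i hi; rw [refl_refl i hi]
  have hq3z : (q : ZMod (q^3))^3 = 0 := by
    have := ZMod.natCast_self (q^3)
    push_cast at this
    exact this
  have hJz : (J : ZMod (q^3)) = q * j' := by rw [hj']; push_cast; ring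
  have hXz : (X : ZMod (q^3)) = q * x' := by rw [hx']; push_cast; ring
  set t : ZMod (q^3) := X * (X + J) with ht
  have htt : t * t = 0 := by
    rw [ht, hJz, hXz]; linear_combination (q * (x'^2 * (x'+j')^2) : ZMod (q^3)) * hq3z
  have htJ : t * J = 0 := by
    rw [ht, hJz, hXz]; linear_combination (x' * (x'+j') * j' : ZMod (q^3)) * hq3z
  have htq : t * q = 0 := by
    rw [ht, hJz, hXz]; linear_combination (x' * (x'+j') : ZMod (q^3)) * hq3z
  set v : ℕ → ZMod (q^3) := fun i => ((i : ZMod (q^3)))⁻¹ with hv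
  have hvi : ∀ i ∈ U, (i : ZMod (q^3)) * v i = 1 := by
    intro i hi
    rw [memU] at hi
    exact ZMod.coe_mul_inv_eq_one i ((hqc i hi.2).pow_right 3)
  have castsub : ∀ i ∈ U, ((J - i : ℕ) : ZMod (q^3)) = J - i := by
    intro i hi
    rw [memU] at hi
    rw [Nat.cast_sub hi.1.le]
  -- the sum of inverse squares is killed by t
  have hS : t * ∑ i ∈ U, (v i)^2 = 0 := by
    have h1 : ∑ i ∈ U, (v i)^2 = ((∑ i ∈ U, (v i).val^2 : ℕ) : ZMod (q^3)) := by
      push_cast
      apply Finset.sum_congr rfl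
      intro i _
      rw [ZMod.natCast_zmod_val]
    have h2 : q ∣ ∑ i ∈ U, (v i).val^2 := by
      rw [← ZMod.natCast_eq_zero_iff]
      push_cast
      have h4 : ∑ i ∈ U, (((v i).val : ℕ) : ZMod q)^2 = ∑ i ∈ range J, isq q (i : ZMod q) := by
        rw [hU, Finset.sum_filter]
        apply Finset.sum_congr rfl
        intro i hi
        have hiJ : i < J := by simpa using hi
        by_cases hpi : p ∣ i
        · rw [if_neg (by simpa using hpi)]
          unfold isq
          rw [if_neg]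
          rw [ZMod.isUnit_iff_coprime]
          exact hqc' i hpi
        · rw [if_pos hpi]
          unfold isq
          have hu : IsUnit (i : ZMod q) := by
            rw [ZMod.isUnit_iff_coprime]; exact hqc i hpi
          rw [if_pos hu]
          congr 1
          have e1 : (i : ZMod (q^3)) * v i = 1 := hvi i ((memU i).2 ⟨hiJ, hpi⟩)
          have e2 : ((i * (v i).val : ℕ) : ZMod (q^3)) = ((1 : ℕ) : ZMod (q^3)) := by
            push_cast
            rw [ZMod.natCast_zmod_val]
            exact e1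
          rw [ZMod.natCast_eq_natCast_iff] at e2
          have e3 : i * (v i).val ≡ 1 [MOD q] := e2.of_dvd (dvd_pow_self q (by norm_num))
          rw [← ZMod.natCast_eq_natCast_iff] at e3
          push_cast at e3
          have e4 : (i : ZMod q) * (i : ZMod q)⁻¹ = 1 := ZMod.mul_inv_of_unit _ hu
          calc (((v i).val : ℕ) : ZMod q) = (((v i).val : ℕ) : ZMod q) * ((i : ZMod q) * (i : ZMod q)⁻¹) := by rw [e4, mul_one]
            _ = ((i : ZMod q) * (((v i).val : ℕ) : ZMod q)) * (i : ZMod q)⁻¹ := by ring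
            _ = _ := by rw [e3, one_mul]
      rw [h4, hj', sum_zmod, sum_range_zmod, sum_isq_zero q hq2 hq3, mul_zero]
    obtain ⟨s, hs⟩ := h2
    rw [h1, hs]
    push_cast
    rw [← mul_assoc, htq, zero_mul]
  have hsum : t * ∑ i ∈ U, (v i * v (J - i)) = 0 := by
    have h1 : ∀ i ∈ U, t * (v i * v (J-i)) = - (t * (v i)^2) := by
      intro i hi
      have e1 := hvi i hi
      have e2 := hvi (J-i) (reflU i hi)
      rw [castsub i hi] at e2
      have e3 : t * v (J-i) = - (t * v i) := by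
        calc t * v (J-i) = t * v (J-i) * ((i : ZMod (q^3)) * v i) := by rw [e1, mul_one]
          _ = (t * J) * v (J-i) * v i - t * (((J : ZMod (q^3)) - i) * v (J-i)) * v i := by ring
          _ = - (t * v i) := by rw [htJ, e2]; ring
      linear_combination (v i) * e3
    rw [Finset.mul_sum, Finset.sum_congr rfl h1, Finset.sum_neg_distrib, ← Finset.mul_sum, hS, neg_zero]
  have hmain : (∏ i ∈ U, ((X : ZMod (q^3)) + i))^2 = (∏ i ∈ U, (i : ZMod (q^3)))^2 := by
    have h1 : (∏ i ∈ U, ((X : ZMod (q^3)) + i))^2 = ∏ i ∈ U, ((i : ZMod (q^3)) * ((J - i : ℕ) : ZMod (q^3)) * (1 + t * (v i * v (J-i)))) := by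
      rw [pow_two]
      nth_rewrite 2 [hrefl (fun i => (X : ZMod (q^3)) + i)]
      rw [← Finset.prod_mul_distrib]
      apply Finset.prod_congr rfl
      intro i hi
      have e1 := hvi i hi
      have e2 := hvi (J-i) (reflU i hi)
      rw [castsub i hi] at e2 ⊢
      have e3 : (i : ZMod (q^3)) * (J - i) * (v i * v (J-i)) = 1 := by
        calc (i : ZMod (q^3)) * (J - i) * (v i * v (J-i)) = ((i : ZMod (q^3)) * v i) * (((J : ZMod (q^3)) - i) * v (J-i)) := by ring
          _ = 1 := by rw [e1, e2, mul_one]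
      rw [ht]
      linear_combination (-(X : ZMod (q^3)) * (X + J)) * e3
    rw [h1, Finset.prod_mul_distrib, prod_one_add t htt, hsum, add_zero, mul_one, Finset.prod_mul_distrib,
      ← hrefl (fun i => (i : ZMod (q^3))), pow_two]
  rw [← ZMod.intCast_zmod_eq_zero_iff_dvd] 
  push_cast
  rw [hmain, sub_self]


lemma key (p e a b : ℕ) (hp : p.Prime) (h3 : 3 < p) (ha : p^e ∣ p*a) (hb : p^e ∣ p*b) (he : 1 ≤ e) :
    (((p : ℤ)^(3*e)) ∣ ((∏ i ∈ range (p*a), g p (p*b+i) : ℕ) : ℤ) - ((∏ i ∈ range (p*a), g p i : ℕ) : ℤ)) ∧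
      ¬ p ∣ ∏ i ∈ range (p*a), g p i := by
  have hF : ∏ i ∈ range (p*a), g p (p*b+i) = ∏ i ∈ (range (p*a)).filter (fun i => ¬ p ∣ i), (p*b+i) := by
    rw [Finset.prod_filter]
    apply Finset.prod_congr rfl
    intro i _
    unfold g
    by_cases h : p ∣ i
    · rw [if_pos ((Nat.dvd_add_right (dvd_mul_right p b)).2 h), if_neg (by simpa using h)]
    · rw [if_neg (fun h' => h ((Nat.dvd_add_right (dvd_mul_right p b)).1 h')), if_pos h]
  have hW : ∏ i ∈ range (p*a), g p i = ∏ i ∈ (range (p*a)).filter (fun i => ¬ p ∣ i), i := by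
    rw [Finset.prod_filter]
    apply Finset.prod_congr rfl
    intro i _
    unfold g
    by_cases h : p ∣ i
    · rw [if_pos h, if_neg (by simpa using h)]
    · rw [if_neg h, if_pos h]
  have hsq := key_sq p e a b hp h3 ha hb he
  rw [hF, hW]
  set F := ∏ i ∈ (range (p*a)).filter (fun i => ¬ p ∣ i), (p*b+i) with hFd
  set W := ∏ i ∈ (range (p*a)).filter (fun i => ¬ p ∣ i), i with hWd
  have hpW : ¬ p ∣ W := by
    intro h
    rw [hWd, Prime.dvd_finsetProd_iff hp.prime] at h
    obtain ⟨i, hi, hpi⟩ := h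
    simp at hi
    exact hi.2 hpi
  refine ⟨?_, hpW⟩
  have hmod : F ≡ W [MOD p] := by
    rw [← ZMod.natCast_eq_natCast_iff, hFd, hWd]
    push_cast
    apply Finset.prod_congr rfl
    intro i _
    simp
  have hmodz : (p : ℤ) ∣ (F : ℤ) - W := by
    rw [← Int.natCast_modEq_iff] at hmod
    exact hmod.symm.dvd
  have hnd : ¬ (p : ℤ) ∣ (F : ℤ) + W := by
    intro h
    have h2 : (p : ℤ) ∣ 2 * W := by
      have := dvd_sub h hmodz
      have e : ((F : ℤ) + W) - (F - W) = 2 * W := by ring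
      rwa [e] at this
    have h4 : p ∣ 2 * W := by exact_mod_cast h2
    rcases (hp.dvd_mul).1 h4 with h5 | h5
    · have := Nat.le_of_dvd (by norm_num) h5; omega
    · exact hpW h5
  have hcop : IsCoprime ((p : ℤ)^(3*e)) ((F : ℤ) + W) := by
    apply IsCoprime.pow_left
    exact (Prime.coprime_iff_not_dvd (Nat.prime_iff_prime_int.1 hp)).2 hnd
  have e1 : (((p^e)^3 : ℕ) : ℤ) = (p : ℤ)^(3*e) := by push_cast; rw [← pow_mul]; ring_nf
  rw [e1] at hsq
  have e2 : (F : ℤ)^2 - (W : ℤ)^2 = (F - W) * (F + W) := by ring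
  rw [e2] at hsq
  exact hcop.dvd_of_dvd_mul_right hsq

lemma choose_cube (p r n j : ℕ) (hp : p.Prime) (h3 : 3 < p) (hn : p^r ∣ n) (hn0 : 0 < n) (hj : j ≤ n) :
    (p : ℤ)^(3*(r+1)) ∣ ((p*n).choose (p*j) : ℤ)^3 - (n.choose j : ℤ)^3 := by
  have hpz : Prime (p : ℤ) := Nat.prime_iff_prime_int.1 hp
  rcases Nat.eq_zero_or_pos j with h0 | hj0
  · subst h0; simp
  obtain ⟨m, hmr, hmj, hc⟩ : ∃ m, m ≤ r ∧ p^m ∣ j ∧ p^(r-m) ∣ n.choose j := by
    by_cases h : p^r ∣ j
    · exact ⟨r, le_refl r, h, by simp⟩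
    · have hjne : j ≠ 0 := hj0.ne'
      obtain ⟨m, j', hj', hjeq⟩ := Nat.exists_eq_pow_mul_and_not_dvd hjne p hp.ne_one
      have hmr : m < r := by
        by_contra hcon
        apply h
        rw [hjeq]
        exact Dvd.dvd.mul_right (pow_dvd_pow p (by omega)) j'
      refine ⟨m, hmr.le, ⟨j', hjeq⟩, ?_⟩
      have e1 : j * n.choose j = n * (n-1).choose (j-1) := by
        have := Nat.add_one_mul_choose_eq (n-1) (j-1)
        rw [show n - 1 + 1 = n by omega, show j - 1 + 1 = j by omega] at this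
        rw [this]; ring
      have e2 : p^r ∣ p^m * (j' * n.choose j) := by
        rw [← mul_assoc, ← hjeq, e1]
        exact Dvd.dvd.mul_right hn _
      have e3 : p^(r-m) ∣ j' * n.choose j := by
        have e4 : p^r = p^m * p^(r-m) := by rw [← pow_add]; congr 1; omega
        rw [e4] at e2
        exact Nat.dvd_of_mul_dvd_mul_left (pow_pos hp.pos m) e2
      have e5 : Nat.Coprime (p^(r-m)) j' := Nat.Coprime.pow_left _ ((Nat.Prime.coprime_iff_not_dvd hp).2 hj')
      exact e5.dvd_of_dvd_mul_left e3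
  have hb : p^m ∣ n - j := by
    exact Nat.dvd_sub ((pow_dvd_pow p hmr).trans hn) hmj
  have hk := key p (m+1) j (n-j) hp h3 (by rw [pow_succ, mul_comm]; exact Nat.mul_dvd_mul_left p hmj)
    (by rw [pow_succ, mul_comm]; exact Nat.mul_dvd_mul_left p hb) (by omega)
  have hce := choose_eq p hp.pos j (n-j)
  rw [show j + (n-j) = n by omega] at hce
  set F := ∏ i ∈ range (p*j), g p (p*(n-j)+i) with hF
  set W := ∏ i ∈ range (p*j), g p i with hW
  obtain ⟨hk1, hk2⟩ := hk
  have hk2z : ¬ (p : ℤ) ∣ (W : ℤ) := by exact_mod_cast hk2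
  obtain ⟨K, hK⟩ := hk1
  obtain ⟨C, hC⟩ := hc
  set A := (p*n).choose (p*j) with hA
  set B := n.choose j with hB
  have hcez : (A : ℤ) * W = B * F := by exact_mod_cast hce
  have hBz : (B : ℤ) = (p : ℤ)^(r-m) * C := by rw [hC]; push_cast; ring
  have hD : (p : ℤ)^((r-m) + 3*(m+1)) ∣ (A : ℤ) - B := by
    have h1 : (p : ℤ)^((r-m) + 3*(m+1)) ∣ ((A : ℤ) - B) * W := by
      have : ((A : ℤ) - B) * W = B * (F - W) := by linear_combination hcez
      rw [this, hK, hBz, pow_add]
      exact ⟨C * K, by ring⟩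
    have h2 : IsCoprime ((p : ℤ)^((r-m) + 3*(m+1))) (W : ℤ) := by
      apply IsCoprime.pow_left
      exact (Prime.coprime_iff_not_dvd hpz).2 hk2z
    exact h2.dvd_of_dvd_mul_right h1
  have hAz : (p : ℤ)^(r-m) ∣ (A : ℤ) := by
    have h1 : (p : ℤ)^(r-m) ∣ (A : ℤ) * W := by
      rw [hcez, hBz]
      exact ⟨C * F, by ring⟩
    have h2 : IsCoprime ((p : ℤ)^(r-m)) (W : ℤ) := by
      apply IsCoprime.pow_left
      exact (Prime.coprime_iff_not_dvd hpz).2 hk2z
    exact h2.dvd_of_dvd_mul_right h1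
  obtain ⟨D, hD⟩ := hD
  obtain ⟨A', hA'⟩ := hAz
  have e1 : (A : ℤ)^3 - (B : ℤ)^3 = ((A : ℤ) - B) * ((A : ℤ)^2 + A * B + (B : ℤ)^2) := by ring
  rw [e1, hD]
  have e2 : (A : ℤ)^2 + A * B + (B : ℤ)^2 = (p : ℤ)^(2*(r-m)) * (A'^2 + A' * C + (C:ℤ)^2) := by
    rw [hA', hBz, show 2*(r-m) = (r-m)+(r-m) by ring, pow_add]; ring
  rw [e2]
  have e3 : 3*(r+1) = ((r-m) + 3*(m+1)) + 2*(r-m) := by omega
  rw [e3, pow_add]
  exact ⟨D * (A'^2 + A' * C + (C:ℤ)^2), by ring⟩

lemma choose_nondvd (p r n k : ℕ) (hp : p.Prime) (hn : p^r ∣ n) (hn0 : 0 < n) (hk : ¬ p ∣ k) :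
    (p : ℤ)^(3*(r+1)) ∣ ((p*n).choose k : ℤ)^3 := by
  have hk0 : 0 < k := by
    rcases Nat.eq_zero_or_pos k with h | h
    · subst h; simp at hk
    · exact h
  have hpn : 0 < p * n := Nat.mul_pos hp.pos hn0
  have e1 : k * (p*n).choose k = (p*n) * (p*n-1).choose (k-1) := by
    have := Nat.add_one_mul_choose_eq (p*n-1) (k-1)
    rw [show p*n - 1 + 1 = p*n by omega, show k - 1 + 1 = k by omega] at this
    rw [this]; ring
  have e2 : p^(r+1) ∣ k * (p*n).choose k := by
    rw [e1, pow_succ, mul_comm (p^r) p]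
    exact Dvd.dvd.mul_right (Nat.mul_dvd_mul_left p hn) _
  have e3 : p^(r+1) ∣ (p*n).choose k :=
    (Nat.Coprime.pow_left _ ((Nat.Prime.coprime_iff_not_dvd hp).2 hk)).dvd_of_dvd_mul_left e2
  have e4 : (p : ℤ)^(r+1) ∣ ((p*n).choose k : ℤ) := by exact_mod_cast e3
  have := pow_dvd_pow_of_dvd e4 3
  rwa [← pow_mul, mul_comm (r+1) 3] at this

lemma main_dvd (p r n : ℕ) (hp : p.Prime) (h3 : 3 < p) (hn : p^r ∣ n) (hn0 : 0 < n) :
    (p : ℤ)^(3*(r+1)) ∣ (a (p*n) : ℤ) - a n := by
  have h1 := two_a (p*n)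
  have h2 := two_a n
  have h4 : (p : ℤ)^(3*(r+1)) ∣ (2 * a (p*n) : ℤ) - (2 * a n : ℤ) := by
    rw [h1, h2]
    have h5 : ∑ j ∈ range (n+1), ((n.choose j : ℤ))^3 * L (2*j - n) =
        ∑ k ∈ range (p*n+1), (if p ∣ k then ((n.choose (k/p) : ℤ))^3 * L (2*((k/p : ℕ) : ℤ) - n) else 0) := by
      apply Finset.sum_of_injOn (fun j => p * j)
      · intro x _ y _ hxy
        exact Nat.eq_of_mul_eq_mul_left hp.pos hxy
      · intro x hx
        simp only [coe_range, Set.mem_Iio] at hx ⊢
        have : p * x ≤ p * n := Nat.mul_le_mul_left p (by omega)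
        omega
      · intro k hk hk2
        rw [if_neg]
        intro ⟨c, hc⟩
        apply hk2
        refine ⟨c, ?_, hc.symm⟩
        simp only [mem_range, coe_range, Set.mem_Iio] at hk ⊢
        have : p * c ≤ p * n := by omega
        have := Nat.le_of_mul_le_mul_left this hp.pos
        omega
      · intro j _
        rw [if_pos (dvd_mul_right p j), Nat.mul_div_cancel_left j hp.pos]
    rw [h5, ← Finset.sum_sub_distrib]
    apply Finset.dvd_sum
    intro k hk
    have hk' : k ≤ p * n := by simpa [Nat.lt_succ_iff] using hk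
    by_cases hpk : p ∣ k
    · rw [if_pos hpk]
      obtain ⟨j, rfl⟩ := hpk
      have hjn : j ≤ n := Nat.le_of_mul_le_mul_left hk' hp.pos
      rw [Nat.mul_div_cancel_left j hp.pos]
      have e1 : (2 * ((p * j : ℕ) : ℤ) - ((p * n : ℕ) : ℤ)) = p * (2 * j - n) := by push_cast; ring
      rw [e1, L_mul p hp h3, ← sub_mul]
      exact Dvd.dvd.mul_right (choose_cube p r n j hp h3 hn hn0 hjn) _
    · rw [if_neg hpk, sub_zero]
      exact Dvd.dvd.mul_right (choose_nondvd p r n k hp hn hn0 hpk) _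
  have h6 : IsCoprime ((p : ℤ)^(3*(r+1))) 2 := by
    apply IsCoprime.pow_left
    have : Nat.Coprime p 2 := by rw [Nat.coprime_primes hp Nat.prime_two]; omega
    exact_mod_cast Nat.isCoprime_iff_coprime.2 this
  have e : (2 * a (p*n) : ℤ) - (2 * a n : ℤ) = 2 * ((a (p*n) : ℤ) - a n) := by ring
  rw [e] at h4
  exact h6.dvd_of_dvd_mul_left h4

/-- Sun's conjecture (2016): for every prime `p > 3` and every positive integer `n` the rational number
`(a (p n) - a n) / (p n) ^ 3` is a `p`-adic integer, i.e. of the form `u / w` with integers `u, w`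
and `p` not dividing `w`. -/
theorem result : ∀ p : ℕ, p.Prime → 3 < p → ∀ n : ℕ, 0 < n →
    ∃ u w : ℤ, ¬ (p : ℤ) ∣ w ∧
      ((a (p * n) : ℚ) - (a n : ℚ)) / ((p : ℚ) * (n : ℚ)) ^ 3 = (u : ℚ) / (w : ℚ) := by
  intro p hp h3 n hn
  obtain ⟨r, n', hn', hneq⟩ := Nat.exists_eq_pow_mul_and_not_dvd hn.ne' p hp.ne_one
  obtain ⟨K, hK⟩ := main_dvd p r n hp h3 ⟨n', hneq⟩ hn
  refine ⟨K, (n' : ℤ)^3, ?_, ?_⟩
  · intro h
    have := (Nat.prime_iff_prime_int.1 hp).dvd_of_dvd_pow h
    exact hn' (by exact_mod_cast this)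
  · have hn'0 : (n' : ℚ) ≠ 0 := by
      have : n' ≠ 0 := by rintro rfl; simp at hn'
      exact_mod_cast this
    have hp0 : (p : ℚ) ≠ 0 := by exact_mod_cast hp.ne_zero
    have hKq : (a (p * n) : ℚ) - (a n : ℚ) = (p : ℚ)^(3*(r+1)) * K := by exact_mod_cast hK
    have hnq : (n : ℚ) = (p : ℚ)^r * n' := by rw [hneq]; push_cast; ring
    rw [hKq, hnq]
    push_cast
    rw [div_eq_div_iff (by positivity) (by positivity)]
    rw [pow_mul, pow_succ]
    ring

end Pool.Agent.Results.MP_ebce10_nt.SunSupercongruence
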